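import Pool.Agent.Helper23.Odd

/-!
# The largest `[0,2]`-sum-free sets in finite abelian groups

For every finite abelian group `G` of order `n` and exponent `κ` we determine the largest size
`μ(G,[0,2])` of a set `A ⊆ G` such that `0A = {0}`, `1A = A` and `2A = A + A` are pairwise
disjoint.  In this file `SumFree02 A` says that `0 ∉ A` and that `a + b ≠ 0` and `a + b ∉ A` for
all `a, b ∈ A`, and `sizes G` is the set of cardinalities of such sets `A`.

* If some prime `3 mod 4` divides `n` and `p` is the least one, then `μ = ((p + 1)/4) (n/p)`.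
* Otherwise, if `4 ∣ κ`, then `μ = n/4`.
* Otherwise, if `n` is even and `2^a` is the exact power of `2` dividing `n`, `μ = (n - 2^a)/4`.
* Otherwise (`n` odd), `μ = ((κ - 1)/4) (n/κ)`.
-/

universe u

open Pool.Agent.Helper23

theorem Pool.Agent.Results.MP_473a0d_co.ExactMu.result
    (G : Type u) [AddCommGroup G] [Fintype G] :
    (∀ p : ℕ, IsLeast {r : ℕ | r.Prime ∧ r % 4 = 3 ∧ r ∣ Fintype.card G} p →
      IsGreatest (sizes G) ((p + 1) / 4 * (Fintype.card G / p))) ∧
    ((∀ r : ℕ, r.Prime → r % 4 = 3 → ¬ r ∣ Fintype.card G) →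
      (4 ∣ AddMonoid.exponent G → IsGreatest (sizes G) (Fintype.card G / 4)) ∧
      (¬ 4 ∣ AddMonoid.exponent G → 2 ∣ Fintype.card G →
        IsGreatest (sizes G) ((Fintype.card G - 2 ^ padicValNat 2 (Fintype.card G)) / 4)) ∧
      (¬ 2 ∣ Fintype.card G →
        IsGreatest (sizes G)
          ((AddMonoid.exponent G - 1) / 4 * (Fintype.card G / AddMonoid.exponent G)))) := by
  constructor
  · rintro p ⟨⟨hp, h3, hpn⟩, hmin⟩
    exact case_three hp h3 hpn (fun r hr hr3 hrn => hmin ⟨hr, hr3, hrn⟩)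
  · intro hno
    have hno' : ∀ r : ℕ, r.Prime → r ∣ Fintype.card G → r % 4 ≠ 3 :=
      fun r hr hrn h3 => hno r hr h3 hrn
    refine ⟨fun h4 => case_four hno' h4, fun h4 h2 => case_even hno' h4 h2, fun h2 => ?_⟩
    apply case_odd
    apply D1_of_noThree hno'
    rw [← Nat.not_even_iff_odd, even_iff_two_dvd]
    exact h2
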